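import Pool.Agent.W78.EG.Defs
import Pool.Agent.W762.EC.Swc

/-!
# Project EG, part SWC: primes with `χ = 1` in characters of small conductor (port of W762/EC/Swc)
-/

set_option autoImplicit false

open Finset

namespace Pool.Agent.W588.EG

open Pool.Agent.W78.EG Pool.Agent.H262R3.Lk.SWQ DirichletCharacter
open Pool.Agent.W762.EC (SS_sub SS_diff theta_nat theta_bound)

variable {t c : ℤ} {f : ℕ} {χ : DirichletCharacter ℂ f}

theorem th_nat (χ : DirichletCharacter ℂ f) (Q m : ℕ) (h1 : Q < m) (h2 : m ≤ 2 * Q) :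
    th χ Q (m : ℤ) = open scoped Classical in if m.Prime ∧ χ (m : ZMod f) = 1 then Real.log m else 0 := by
  classical
  unfold th PQ
  have e : ((m : ℤ)).toNat = m := Int.toNat_natCast m
  rw [e]
  have h3 : (0 : ℤ) < m := by omega
  simp only [mem_filter, mem_Ioc, h1, h2, h3, true_and, Int.cast_natCast]

/-- The product with the character `χ`. -/
noncomputable def Psi (χ : DirichletCharacter ℂ f) {q : ℕ} (ψ : DirichletCharacter ℂ q) :
    DirichletCharacter ℂ (f * q) :=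
  changeLevel (Dvd.intro_left f rfl) ψ * changeLevel (Dvd.intro q rfl) χ

theorem Psi_val (χ : DirichletCharacter ℂ f) {q : ℕ} (ψ : DirichletCharacter ℂ q) {p : ℕ}
    (hp : Nat.Coprime p (f * q)) :
    Psi χ ψ (p : ZMod (f * q)) = ψ (p : ZMod q) * χ (p : ZMod f) := by
  have hc : IsCoprime (p : ℤ) ((f * q : ℕ) : ℤ) := Nat.isCoprime_iff_coprime.2 hp
  unfold Psi
  rw [MulChar.mul_apply]
  have h2 := changeLevel_eq_cast_of_dvd' ψ (Dvd.intro_left f rfl : q ∣ f * q) hc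
  have h3 := changeLevel_eq_cast_of_dvd' χ (Dvd.intro q rfl : f ∣ f * q) hc
  rw [Int.cast_natCast, Int.cast_natCast] at h2 h3
  rw [h2, h3]

theorem Psi_apply (χ : DirichletCharacter ℂ f) {q : ℕ} (ψ : DirichletCharacter ℂ q) {p : ℕ}
    (hp : Nat.Coprime p (f * q)) :
    (Psi χ ψ).primitiveCharacter (p : ZMod (Psi χ ψ).conductor) =
      ψ (p : ZMod q) * χ (p : ZMod f) := by
  have hc : IsCoprime (p : ℤ) ((f * q : ℕ) : ℤ) := Nat.isCoprime_iff_coprime.2 hp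
  have h1 := primitiveCharacter_apply_of_isCoprime (Psi χ ψ) hc
  rw [Int.cast_natCast, Int.cast_natCast] at h1
  rw [h1, Psi_val χ ψ hp]

theorem val_unit (hF : Fd t c f χ) {n : ℕ} (hn : Nat.Coprime n f) :
    χ (n : ZMod f) = 1 ∨ χ (n : ZMod f) = -1 := by
  rcases hF.val n with h | h | h
  · exfalso
    have hu : IsUnit (n : ZMod f) := (ZMod.isUnit_iff_coprime n f).2 hn
    exact (IsUnit.map χ hu).ne_zero h
  · exact Or.inl h
  · exact Or.inr h

theorem Psi_ne_one (hF : Fd t c f χ) {q : ℕ} (hq : 2 ≤ q) (ψ : DirichletCharacter ℂ q)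
    (hψ : ψ.IsPrimitive) (hne : ∃ n : ℕ, ψ (n : ZMod q) ≠ χ (n : ZMod f)) : Psi χ ψ ≠ 1 := by
  intro h
  have hf3 := hF.three
  have hNZ : NeZero (f * q) := ⟨by positivity⟩
  have hqf : q = f := by
    have h1 : changeLevel (Dvd.intro_left f rfl : q ∣ f * q) ψ =
        (changeLevel (Dvd.intro q rfl : f ∣ f * q) χ)⁻¹ := by
      rw [eq_inv_iff_mul_eq_one]
      exact h
    have h2 := congrArg conductor h1
    rw [conductor_changeLevel, conductor_inv, conductor_changeLevel] at h2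
    rw [isPrimitive_def] at hψ
    have h3 : χ.conductor = f := hF.prim
    rw [hψ, h3] at h2
    exact h2
  subst hqf
  obtain ⟨n, hn⟩ := hne
  by_cases hc : Nat.Coprime n q
  · have hc' : Nat.Coprime n (q * q) := Nat.Coprime.mul_right hc hc
    have h1 := Psi_val χ ψ hc'
    rw [h, MulChar.one_apply ((ZMod.isUnit_iff_coprime n (q * q)).2 hc')] at h1
    rcases val_unit hF hc with h2 | h2
    · rw [h2] at h1 hn
      exact hn (by rw [mul_one] at h1; exact h1.symm)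
    · rw [h2] at h1 hn
      apply hn
      linear_combination h1
  · have hu : ¬ IsUnit (n : ZMod q) := fun h => hc ((ZMod.isUnit_iff_coprime n q).1 h)
    exact hn (by rw [MulChar.map_nonunit ψ hu, MulChar.map_nonunit χ hu])

theorem Psi_cond (hF : Fd t c f χ) {q : ℕ} (hq : 2 ≤ q) (ψ : DirichletCharacter ℂ q)
    (hψ : ψ.IsPrimitive) (hne : ∃ n : ℕ, ψ (n : ZMod q) ≠ χ (n : ZMod f)) :
    1 < (Psi χ ψ).conductor ∧ (Psi χ ψ).conductor ≤ f * q := by
  have hf3 := hF.three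
  have hpos : 0 < f * q := by positivity
  have : NeZero (f * q) := ⟨hpos.ne'⟩
  have h1 : (Psi χ ψ).conductor ≠ 0 := conductor_ne_zero _
  have h2 : (Psi χ ψ).conductor ≠ 1 :=
    fun h => Psi_ne_one hF hq ψ hψ hne (eq_one_iff_conductor_eq_one.2 h)
  have h3 : (Psi χ ψ).conductor ≤ f * q := Nat.le_of_dvd hpos (conductor_dvd_level _)
  omega

theorem th_split (hF : Fd t c f χ) {q : ℕ} (hq : 2 ≤ q) (ψ : DirichletCharacter ℂ q)
    (Q x : ℕ) (hQ : f * q ≤ Q) (h1 : Q ≤ x) (h2 : x ≤ 2 * Q) :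
    ∑ m ∈ Ioc Q x, (th χ Q m : ℂ) * ψ (m : ZMod q) =
      (1 / 2 : ℂ) * ((SS ψ x - SS ψ Q) +
        (SS (Psi χ ψ).primitiveCharacter x - SS (Psi χ ψ).primitiveCharacter Q)) := by
  have hf3 := hF.three
  have hpos : 0 < f * q := by positivity
  rw [SS_sub _ Q x h1, SS_sub _ Q x h1, ← sum_add_distrib, mul_sum]
  apply sum_congr rfl
  intro m hm
  rw [mem_Ioc] at hm
  rw [th_nat χ Q m hm.1 (by omega)]
  unfold Pool.Agent.H262R3.Lk.SWQ.av
  by_cases hp : m.Prime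
  · have hcop : Nat.Coprime m (f * q) := by
      rw [Nat.Prime.coprime_iff_not_dvd hp]
      intro hd
      have := Nat.le_of_dvd hpos hd
      omega
    rw [if_pos hp, if_pos hp, Psi_apply χ ψ hcop]
    rcases val_unit hF (Nat.Coprime.coprime_mul_right_right hcop) with h4 | h4
    · rw [if_pos ⟨hp, h4⟩, h4]
      ring
    · rw [if_neg (by
        rintro ⟨_, h5⟩
        rw [h4] at h5
        norm_num at h5), h4]
      push_cast
      ring
  · rw [if_neg (fun h => hp h.1), if_neg hp, if_neg hp]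
    simp

theorem part1 (hF : Fd t c f χ) (A B : ℕ) : ∃ C : ℝ, ∃ Q₀ : ℕ, ∀ Q : ℕ, Q₀ ≤ Q → ∀ x : ℕ, Q ≤ x →
    x ≤ 2 * Q → ∀ q : ℕ, 2 ≤ q → (q : ℝ) ≤ Real.log Q ^ B → ∀ ψ : DirichletCharacter ℂ q,
    ψ.IsPrimitive → (∃ n : ℕ, ψ (n : ZMod q) ≠ χ (n : ZMod f)) →
    ‖∑ m ∈ Ioc Q x, (th χ Q m : ℂ) * ψ (m : ZMod q)‖ ≤ C * Q / Real.log Q ^ A := by
  have hf3 := hF.three
  have hf3' : (3 : ℝ) ≤ f := by exact_mod_cast hf3
  obtain ⟨n₁, h⟩ := SS_diff A (B + 1)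
  obtain ⟨X, hX⟩ := Pool.Agent.W762.EC.SSA.growth B
  refine ⟨36, max (max n₁ ⌈X⌉₊) (max ⌈Real.exp f⌉₊ (f ^ 2)), fun Q hQ x h1 h2 q hq hqB ψ hψ hne => ?_⟩
  have hQ1 : n₁ ≤ Q := ((le_max_left _ _).trans (le_max_left _ _)).trans hQ
  have hQ2 : X ≤ Q := (Nat.le_ceil _).trans
    (by exact_mod_cast ((le_max_right _ _).trans (le_max_left _ _)).trans hQ)
  have hQ3 : Real.exp f ≤ Q := (Nat.le_ceil _).trans
    (by exact_mod_cast ((le_max_left _ _).trans (le_max_right _ _)).trans hQ)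
  have hQ16 : f ^ 2 ≤ Q := ((le_max_right _ _).trans (le_max_right _ _)).trans hQ
  have hQ16' : (f : ℝ) ^ 2 ≤ Q := by exact_mod_cast hQ16
  have hQpos : (0 : ℝ) < Q := lt_of_lt_of_le (by positivity) hQ16'
  have hL : (f : ℝ) ≤ Real.log Q := by rw [Real.le_log_iff_exp_le hQpos]; exact hQ3
  have hB0 : 0 ≤ Real.log Q ^ B := by
    have : 0 ≤ Real.log Q := by linarith
    positivity
  have hLB : Real.log Q ^ (B + 1) = Real.log Q ^ B * Real.log Q := pow_succ _ _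
  have hq0 : (0 : ℝ) ≤ q := Nat.cast_nonneg q
  have hqB' : ((f * q : ℕ) : ℝ) ≤ Real.log Q ^ (B + 1) := by
    push_cast
    rw [hLB, mul_comm]
    exact mul_le_mul hqB hL (by linarith) hB0
  have hq' : (q : ℝ) ≤ Real.log Q ^ (B + 1) := by
    refine le_trans ?_ hqB'
    push_cast
    nlinarith
  have hqQ : f * q ≤ Q := by
    have e1 := hX Q hQ2
    have e2 : Real.sqrt Q * Real.sqrt Q = Q := Real.mul_self_sqrt hQpos.le
    have e3 : (f : ℝ) ≤ Real.sqrt Q := Real.le_sqrt_of_sq_le hQ16'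
    have e4 : (f : ℝ) * (q : ℝ) ≤ Q := by
      calc (f : ℝ) * (q : ℝ) ≤ f * Real.sqrt Q := mul_le_mul_of_nonneg_left (by linarith) (by linarith)
        _ ≤ Real.sqrt Q * Real.sqrt Q := mul_le_mul_of_nonneg_right e3 (Real.sqrt_nonneg _)
        _ = Q := e2
    exact_mod_cast e4
  rw [th_split hF hq ψ Q x hqQ h1 h2, norm_mul]
  have k1 := h Q hQ1 x h1 h2 q (by omega) hq' ψ hψ
  obtain ⟨c1, c2⟩ := Psi_cond hF hq ψ hψ hne
  have k2 := h Q hQ1 x h1 h2 (Psi χ ψ).conductor c1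
    (le_trans (by exact_mod_cast c2) hqB') (Psi χ ψ).primitiveCharacter
    (Psi χ ψ).primitiveCharacter_isPrimitive
  have k3 := norm_add_le (SS ψ x - SS ψ Q)
    (SS (Psi χ ψ).primitiveCharacter x - SS (Psi χ ψ).primitiveCharacter Q)
  have k4 : ‖(1 / 2 : ℂ)‖ = 1 / 2 := by norm_num
  rw [k4]
  linarith

theorem part2 (hF : Fd t c f χ) (A : ℕ) : ∃ C : ℝ, ∃ Q₀ : ℕ, ∀ Q : ℕ, Q₀ ≤ Q → ∀ x : ℕ, Q ≤ x →
    x ≤ 2 * Q → |∑ m ∈ Ioc Q x, th χ Q m - ((x : ℝ) - Q) / 2| ≤ C * Q / Real.log Q ^ A := by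
  classical
  have hf3 := hF.three
  have hf3' : (3 : ℝ) ≤ f := by exact_mod_cast hf3
  obtain ⟨n₁, h⟩ := SS_diff A 1
  obtain ⟨n₂, h'⟩ := theta_bound A
  refine ⟨1 / 2 * (36 + 3 * (37 + 16 * 8 ^ (A + 1))), max (max n₁ n₂) ⌈Real.exp f⌉₊,
    fun Q hQ x h1 h2 => ?_⟩
  have hQ1 : n₁ ≤ Q := ((le_max_left _ _).trans (le_max_left _ _)).trans hQ
  have hQ2 : n₂ ≤ Q := ((le_max_right _ _).trans (le_max_left _ _)).trans hQ
  have hQ3 : Real.exp f ≤ Q := (Nat.le_ceil _).trans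
    (by exact_mod_cast (le_max_right _ _).trans hQ)
  have hQp : (0 : ℝ) < Q := lt_of_lt_of_le (Real.exp_pos f) hQ3
  have hL : (f : ℝ) ≤ Real.log Q := by rw [Real.le_log_iff_exp_le hQp]; exact hQ3
  have hfQ : (f : ℝ) ≤ Q := by
    have := Real.add_one_le_exp (f : ℝ)
    linarith
  have hfQ' : f ≤ Q := by exact_mod_cast hfQ
  have htQ : (Q : ℝ) ≤ x := by exact_mod_cast h1
  have htQ2 : (x : ℝ) ≤ 2 * Q := by exact_mod_cast h2
  have hLt : Real.log Q ≤ Real.log x := Real.log_le_log hQp htQ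
  have k1 := h Q hQ1 x h1 h2 f (by omega) (by rw [pow_one]; exact hL) χ hF.prim
  have k2 := h' Q hQ2
  have k3 := h' x (hQ2.trans h1)
  -- decomposition
  have e1 : ∑ m ∈ Ioc Q x, Pool.Agent.W762.EC.lp m = Chebyshev.theta (x : ℝ) - Chebyshev.theta (Q : ℝ) := by
    rw [theta_nat, theta_nat, ← sum_Ioc_consecutive _ (Nat.zero_le Q) h1]
    ring
  have e2 : (∑ m ∈ Ioc Q x, (χ (m : ZMod f)).re * Pool.Agent.W762.EC.lp m : ℝ) = (SS χ x - SS χ Q).re := by
    rw [SS_sub _ Q x h1, Complex.re_sum]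
    apply sum_congr rfl
    intro m _
    unfold Pool.Agent.H262R3.Lk.SWQ.av Pool.Agent.W762.EC.lp
    split_ifs
    · rw [Complex.re_mul_ofReal]
    · simp
  have e3 : ∑ m ∈ Ioc Q x, th χ Q m =
      1 / 2 * (∑ m ∈ Ioc Q x, Pool.Agent.W762.EC.lp m + ∑ m ∈ Ioc Q x, (χ (m : ZMod f)).re * Pool.Agent.W762.EC.lp m) := by
    rw [← sum_add_distrib, mul_sum]
    apply sum_congr rfl
    intro m hm
    rw [mem_Ioc] at hm
    rw [th_nat χ Q m hm.1 (by omega)]
    unfold Pool.Agent.W762.EC.lp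
    by_cases hp : m.Prime
    · have hcop : Nat.Coprime m f := by
        rw [Nat.Prime.coprime_iff_not_dvd hp]
        intro hd
        have := Nat.le_of_dvd (by omega) hd
        omega
      rcases val_unit hF hcop with h4 | h4
      · rw [if_pos ⟨hp, h4⟩, if_pos hp, h4]
        simp
        ring
      · rw [if_neg (by
          rintro ⟨_, h5⟩
          rw [h4] at h5
          norm_num at h5), if_pos hp, h4]
        simp
    · rw [if_neg (fun h => hp h.1), if_neg hp]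
      simp
  have e4 : |∑ m ∈ Ioc Q x, (χ (m : ZMod f)).re * Pool.Agent.W762.EC.lp m| ≤ 36 * Q / Real.log Q ^ A := by
    rw [e2]
    exact (Complex.abs_re_le_norm _).trans k1
  have e5 : (x : ℝ) / Real.log x ^ A ≤ 2 * (Q / Real.log Q ^ A) := by
    have hLp : 0 < Real.log Q := by linarith
    rw [mul_div_assoc']
    apply div_le_div₀ (by positivity) (by linarith) (by positivity)
    exact pow_le_pow_left₀ hLp.le hLt _
  have hC : (0 : ℝ) ≤ 37 + 16 * 8 ^ (A + 1) := by positivity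
  have e6 := mul_le_mul_of_nonneg_left e5 hC
  have e7 : 1 / 2 * (36 + 3 * (37 + 16 * 8 ^ (A + 1))) * (Q : ℝ) / Real.log Q ^ A =
      1 / 2 * (36 * Q / Real.log Q ^ A + 3 * ((37 + 16 * 8 ^ (A + 1)) *
        (Q / Real.log Q ^ A))) := by ring
  rw [e3, e1, e7]
  rw [abs_le] at k2 k3 e4 ⊢
  constructor <;> linarith [k2.1, k2.2, k3.1, k3.2, e4.1, e4.2]

theorem swc (hF : Fd t c f χ) : S_SWC χ := ⟨part1 hF, part2 hF⟩

end Pool.Agent.W588.EG
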